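import Mathlib
import Pool.Agent.Lib.MP_53fefd_al.Defs
import Pool.Agent.Lib.MP_53fefd_al.BorelAH

universe u

open scoped MeasureTheory

namespace Pool.Agent.Results.MP_53fefd_al.AcylHypBorel

open Pool.Agent.Lib.MP_53fefd_al

/-- For every `n`, the set of `n`-generated marked groups that are acylindrically hyperbolic is a
Borel subset of the space of `n`-generated marked groups. -/
theorem result (n : ℕ) : MeasurableSet[borel (Marked n)] {N : Marked n | AcylHyp.{u} N.Grp} :=
  measurableSet_acylHyp

end Pool.Agent.Results.MP_53fefd_al.AcylHypBorel
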